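import Pool.Agent.N495.TS.StmM

/-!
# Torsion orders of quotients of products, general operators (helper617, project TS of helper495)

After helper265's part TORSN.
-/

set_option autoImplicit false

namespace Pool.Agent.N617.TS

/-- The subgroup killed by `n`. -/
def tors (V : Type) [AddCommGroup V] (n : ℕ) : AddSubgroup V := (nsmulAddMonoidHom n).ker

theorem mem_tors {V : Type} [AddCommGroup V] {n : ℕ} {v : V} : v ∈ tors V n ↔ n • v = 0 := by
  simp [tors, AddMonoidHom.mem_ker]

/-- a finite group with at most `p` elements killed by `p` for all primes `p` is cyclic -/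
theorem cyclic_of_prime {L : Type} [AddCommGroup L] [Fintype L] [DecidableEq L]
    (h : ∀ p : ℕ, p.Prime → (Finset.univ.filter fun x : L => p • x = 0).card ≤ p) : IsAddCyclic L := by
  have key : ∀ n : ℕ, 0 < n → (Finset.univ.filter fun x : L => n • x = 0).card ≤ n := by
    intro n
    induction n using Nat.strong_induction_on with
    | _ n ih =>
      intro hn
      by_cases h1 : n = 1
      · subst h1
        simp only [one_smul]
        rw [Finset.filter_eq' Finset.univ (0 : L), if_pos (Finset.mem_univ _), Finset.card_singleton]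
      set p := n.minFac with hp
      have hpp : p.Prime := Nat.minFac_prime h1
      obtain ⟨m, hm⟩ := Nat.minFac_dvd n
      rw [← hp] at hm
      have hm0 : 0 < m := by
        rcases Nat.eq_zero_or_pos m with h2 | h2
        · rw [h2, mul_zero] at hm; omega
        · exact h2
      have hmn : m < n := by
        rw [hm]
        exact lt_mul_of_one_lt_left hm0 hpp.one_lt
      have h3 := ih m hmn hm0
      have h4 : (Finset.univ.filter fun x : L => n • x = 0).card ≤
          p * ((Finset.univ.filter fun x : L => n • x = 0).image fun x => p • x).card := by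
        apply Finset.card_le_mul_card_image
        intro b hb
        obtain ⟨a0, ha0, rfl⟩ := Finset.mem_image.1 hb
        refine le_trans (Finset.card_le_card_of_injOn (fun a => a - a0) ?_ ?_) (h p hpp)
        · intro a ha
          simp only [Finset.coe_filter, Finset.mem_filter, Finset.mem_univ, true_and,
            Set.mem_ofPred_eq] at ha ⊢
          rw [smul_sub, ha.2, sub_self]
        · intro a _ a' _ haa
          exact sub_left_injective haa
      have h5 : ((Finset.univ.filter fun x : L => n • x = 0).image fun x => p • x).card ≤ m := by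
        refine le_trans (Finset.card_le_card ?_) h3
        intro y hy
        obtain ⟨x, hx, rfl⟩ := Finset.mem_image.1 hy
        simp only [Finset.mem_filter, Finset.mem_univ, true_and] at hx ⊢
        rw [smul_smul, mul_comm, ← hm, hx]
      calc _ ≤ p * _ := h4
        _ ≤ p * m := Nat.mul_le_mul_left p h5
        _ = n := hm.symm
  exact isAddCyclic_of_card_nsmul_eq_zero_le key

theorem span_card {V : Type} [AddCommGroup V] {q : ℕ} (hq : q.Prime) {P Q : V} (hP : q • P = 0)
    (hQ : q • Q = 0) (h : ∀ R : V, q • R = 0 → ∃ m n : ℤ, R = m • P + n • Q) :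
    Finite (tors V q) ∧ Nat.card (tors V q) ≤ q * q := by
  have hq0 : (q : ℤ) ≠ 0 := by exact_mod_cast hq.ne_zero
  have hred : ∀ (R : V) (m : ℤ), q • R = 0 → m • R = (m % q).toNat • R := by
    intro R m hR
    have h1 : ((m % q).toNat : ℤ) = m % q := Int.toNat_of_nonneg (Int.emod_nonneg m hq0)
    rw [← natCast_zsmul, h1]
    conv_lhs => rw [← Int.emod_add_mul_ediv m q]
    rw [add_smul, mul_comm, mul_smul, natCast_zsmul, hR, smul_zero, add_zero]
  have hlt : ∀ m : ℤ, (m % q).toNat < q := by
    intro m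
    have h1 := Int.emod_lt_of_pos m (by exact_mod_cast hq.pos : (0 : ℤ) < q)
    have h2 := Int.emod_nonneg m hq0
    omega
  let f : Fin q × Fin q → tors V q := fun w => ⟨(w.1 : ℕ) • P + (w.2 : ℕ) • Q, by
    rw [mem_tors, smul_add, smul_comm, hP, smul_zero, zero_add, smul_comm, hQ, smul_zero]⟩
  have hf : Function.Surjective f := by
    rintro ⟨R, hR⟩
    rw [mem_tors] at hR
    obtain ⟨m, n, hmn⟩ := h R hR
    refine ⟨(⟨(m % q).toNat, hlt m⟩, ⟨(n % q).toNat, hlt n⟩), Subtype.ext ?_⟩
    change (m % q).toNat • P + (n % q).toNat • Q = R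
    rw [← hred P m hP, ← hred Q n hQ, hmn]
  refine ⟨Finite.of_surjective f hf, ?_⟩
  have := Nat.card_le_card_of_surjective f hf
  rw [Nat.card_prod, Nat.card_fin] at this
  exact this

/-- the lemma on finite subgroups of a group of rank two -/
theorem key {V : Type} [AddCommGroup V]
    (hV : ∀ q : ℕ, q.Prime → ∃ P Q : V, q • P = 0 ∧ q • Q = 0 ∧
      ∀ R : V, q • R = 0 → ∃ m n : ℤ, R = m • P + n • Q) (N : ℕ) :
    ∀ L : AddSubgroup V, (L : Set V).Finite → (L : Set V).ncard = N →
      ∃ a : ℕ, 0 < a ∧ (∀ v, a • v = 0 → v ∈ L) ∧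
        ∃ l₀ ∈ L, ∀ l ∈ L, a • l ∈ AddSubgroup.zmultiples (a • l₀) := by
  classical
  induction N using Nat.strong_induction_on with
  | _ N ih =>
    intro L hL hN
    have hLf : Finite L := hL
    have hLft : Fintype L := Fintype.ofFinite L
    by_cases hc : IsAddCyclic L
    · obtain ⟨g, hg⟩ := hc.exists_generator
      refine ⟨1, one_pos, fun v hv => ?_, g.1, g.2, fun l hl => ?_⟩
      · rw [one_smul] at hv
        rw [hv]; exact L.zero_mem
      · rw [one_smul, one_smul]
        obtain ⟨k, hk⟩ := AddSubgroup.mem_zmultiples_iff.1 (hg ⟨l, hl⟩)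
        refine AddSubgroup.mem_zmultiples_iff.2 ⟨k, ?_⟩
        have := congrArg Subtype.val hk
        simpa using this
    · -- a prime with many elements
      obtain ⟨p, hp, hpL⟩ : ∃ p : ℕ, p.Prime ∧
          p < (Finset.univ.filter fun x : L => p • x = 0).card := by
        by_contra hcon
        push Not at hcon
        exact hc (cyclic_of_prime hcon)
      obtain ⟨P, Q, hP, hQ, hPQ⟩ := hV p hp
      obtain ⟨hTf, hTc⟩ := span_card hp hP hQ hPQ
      -- the `p`-torsion is contained in `L`
      have hsub : ∀ v, p • v = 0 → v ∈ L := by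
        by_contra hcon
        push Not at hcon
        obtain ⟨t, ht, htL⟩ := hcon
        set U : AddSubgroup (tors V p) := L.comap (tors V p).subtype with hU
        have hUc : p < Nat.card U := by
          have e : {x : L // x ∈ Finset.univ.filter fun x : L => p • x = 0} ≃ U :=
            { toFun := fun x => ⟨⟨x.1.1, mem_tors.2 (by
                have h1 := (Finset.mem_filter.1 x.2).2
                simpa using congrArg Subtype.val h1)⟩, x.1.2⟩
              invFun := fun y => ⟨⟨y.1.1, y.2⟩, Finset.mem_filter.2 ⟨Finset.mem_univ _,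
                Subtype.ext (by simpa using mem_tors.1 y.1.2)⟩⟩
              left_inv := fun x => rfl
              right_inv := fun y => rfl }
          rw [← Nat.card_congr e, Nat.card_eq_fintype_card, Fintype.card_coe]
          exact hpL
        have hidx : p ∣ Nat.card (tors V p ⧸ U) := by
          have h1 : addOrderOf ((⟨t, mem_tors.2 ht⟩ : tors V p) : tors V p ⧸ U) = p := by
            have := Fact.mk hp
            apply addOrderOf_eq_prime
            · rw [← QuotientAddGroup.mk_nsmul, QuotientAddGroup.eq_zero_iff]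
              change p • t ∈ L
              rw [ht]; exact L.zero_mem
            · intro h2
              rw [QuotientAddGroup.eq_zero_iff] at h2
              exact htL h2
          have h1' := addOrderOf_dvd_natCard ((⟨t, mem_tors.2 ht⟩ : tors V p) : tors V p ⧸ U)
          rwa [h1] at h1'
        have hidx0 : 0 < Nat.card (tors V p ⧸ U) := Nat.card_pos
        have h2 := Nat.le_of_dvd hidx0 hidx
        have h3 := AddSubgroup.card_eq_card_quotient_mul_card_addSubgroup U
        rw [h3] at hTc
        have h4 : p * (p + 1) ≤ Nat.card (tors V p ⧸ U) * Nat.card U := Nat.mul_le_mul h2 hUc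
        have h5 := hp.pos
        nlinarith
      set L' : AddSubgroup V := L.map (nsmulAddMonoidHom p) with hL'
      have hL'c : (L' : Set V) = (fun v => p • v) '' (L : Set V) := by
        rw [hL', AddSubgroup.coe_map]; rfl
      have hlt : (L' : Set V).ncard < N := by
        have h1 : (L' : Set V).ncard ≤ N := by
          rw [hL'c, ← hN]; exact Set.ncard_image_le hL
        refine lt_of_le_of_ne h1 fun h2 => ?_
        rw [hL'c, ← hN, Set.ncard_image_iff hL] at h2
        -- two different elements killed by `p`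
        have h3 : (Finset.univ.filter fun x : L => p • x = 0).card ≤ 1 := by
          rw [Finset.card_le_one]
          intro x hx y hy
          apply Subtype.ext
          apply h2 x.2 y.2
          have hx1 := congrArg Subtype.val (Finset.mem_filter.1 hx).2
          have hy1 := congrArg Subtype.val (Finset.mem_filter.1 hy).2
          change p • x.1 = p • y.1
          have hx2 : p • x.1 = 0 := by simpa using hx1
          have hy2 : p • y.1 = 0 := by simpa using hy1
          rw [hx2, hy2]
        have := hp.one_lt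
        omega
      obtain ⟨a', ha', hv', l₁, hl₁, hcyc⟩ := ih _ hlt L' (by rw [hL'c]; exact hL.image _) rfl
      obtain ⟨l₀, hl₀, rfl⟩ := hl₁
      refine ⟨a' * p, Nat.mul_pos ha' hp.pos, fun v hv => ?_, l₀, hl₀, fun l hl => ?_⟩
      · rw [mul_smul] at hv
        obtain ⟨l, hl, hlv⟩ := hv' _ hv
        have h1 : p • (v - l) = 0 := by
          rw [smul_sub, sub_eq_zero]
          exact hlv.symm
        have h2 := L.add_mem (hsub _ h1) hl
        rwa [sub_add_cancel] at h2
      · rw [mul_smul, mul_smul]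
        exact hcyc (p • l) ⟨l, hl, rfl⟩

theorem many {G : Type} {g : ℕ} (V : Fin g → Type) [∀ i, AddCommGroup (V i)]
    (act : ∀ i, G → V i →+ V i)
    (hV : ∀ i, ∀ q : ℕ, q.Prime → ∃ P Q : V i, q • P = 0 ∧ q • Q = 0 ∧
      ∀ R : V i, q • R = 0 → ∃ m n : ℤ, R = m • P + n • Q)
    (Γ : AddSubgroup (∀ i, V i)) (hΓ : (Γ : Set (∀ i, V i)).Finite)
    (hst : ∀ σ : G, ∀ x ∈ Γ, (fun i => act i σ (x i)) ∈ Γ) (s : Finset (Fin g)) :
    ∀ x : ∀ i, V i, (∀ j, j ∉ s → x j = 0) → (∀ σ : G, (fun i => act i σ (x i) - x i) ∈ Γ) →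
      IsOfFinAddOrder (x : (∀ i, V i) ⧸ Γ) →
      ∃ c w : ∀ i, V i, (∀ i, IsOfFinAddOrder (c i) ∧ IsOfFinAddOrder (w i) ∧
        (∀ σ : G, act i σ (c i) ∈ AddSubgroup.zmultiples (c i)) ∧
        (∀ σ : G, act i σ (w i) = w i)) ∧
        addOrderOf (x : (∀ i, V i) ⧸ Γ) ∣ ∏ i ∈ s, (addOrderOf (c i) * addOrderOf (w i)) := by
  classical
  induction s using Finset.induction_on with
  | empty =>
    intro x hx _ _
    have : x = 0 := funext fun j => hx j (Finset.notMem_empty j)
    refine ⟨0, 0, fun i => ⟨IsOfFinAddOrder.zero, IsOfFinAddOrder.zero, fun σ => ?_,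
      fun σ => map_zero _⟩, ?_⟩
    · change act i σ 0 ∈ _
      rw [map_zero]; exact AddSubgroup.zero_mem _
    rw [this, QuotientAddGroup.mk_zero, addOrderOf_zero]
    exact one_dvd _
  | insert i s his ih =>
    intro x hx hσ hfin
    set Γs : AddSubgroup (∀ i, V i) :=
      { carrier := {γ | γ ∈ Γ ∧ ∀ j, j ∉ insert i s → γ j = 0}
        zero_mem' := ⟨Γ.zero_mem, fun _ _ => rfl⟩
        add_mem' := fun {a b} ha hb => ⟨Γ.add_mem ha.1 hb.1, fun j hj => by
          rw [Pi.add_apply, ha.2 j hj, hb.2 j hj, add_zero]⟩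
        neg_mem' := fun {a} ha => ⟨Γ.neg_mem ha.1, fun j hj => by
          rw [Pi.neg_apply, ha.2 j hj, neg_zero]⟩ } with hΓs
    have hmem : ∀ γ, γ ∈ Γs ↔ γ ∈ Γ ∧ ∀ j, j ∉ insert i s → γ j = 0 := fun γ => Iff.rfl
    set L : AddSubgroup (V i) := Γs.map (Pi.evalAddMonoidHom V i) with hL
    have hLfin : (L : Set (V i)).Finite := by
      have h1 : (Γs : Set (∀ i, V i)).Finite := hΓ.subset fun γ hγ => ((hmem γ).1 hγ).1
      rw [hL, AddSubgroup.coe_map]
      exact h1.image _
    have hLst : ∀ σ : G, ∀ l ∈ L, act i σ l ∈ L := by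
      rintro σ _ ⟨γ, hγ, rfl⟩
      have hγ' := (hmem γ).1 hγ
      refine ⟨fun i => act i σ (γ i), (hmem _).2 ⟨hst σ γ hγ'.1, fun j hj => ?_⟩, rfl⟩
      change act j σ (γ j) = 0
      rw [hγ'.2 j hj, map_zero]
    have hLx : ∀ γ ∈ Γ, (∀ j, j ∉ insert i s → γ j = 0) → γ i ∈ L := fun γ h1 h2 =>
      ⟨γ, (hmem γ).2 ⟨h1, h2⟩, rfl⟩
    have hLo : ∀ l ∈ L, IsOfFinAddOrder l := by
      intro l hl
      have h1 : Finite L := hLfin
      have h2 := isOfFinAddOrder_of_finite (⟨l, hl⟩ : L)
      rw [isOfFinAddOrder_iff_nsmul_eq_zero] at h2 ⊢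
      obtain ⟨n, hn, h3⟩ := h2
      exact ⟨n, hn, by simpa using congrArg Subtype.val h3⟩
    obtain ⟨a, ha, haL, l₀, hl₀, hcyc⟩ := key (hV i) _ L hLfin rfl
    have hm0 := addOrderOf_pos_iff.2 hfin
    have hmx : addOrderOf (x : (∀ i, V i) ⧸ Γ) • x ∈ Γ := by
      rw [← QuotientAddGroup.eq_zero_iff]
      exact addOrderOf_nsmul_eq_zero (x : (∀ i, V i) ⧸ Γ)
    -- `x i` has finite order
    have hxi : IsOfFinAddOrder (x i) := by
      have h1 := hLo _ (hLx _ hmx fun j hj => by rw [Pi.smul_apply, hx j hj, smul_zero])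
      rw [isOfFinAddOrder_iff_nsmul_eq_zero] at h1 ⊢
      obtain ⟨n, hn, h2⟩ := h1
      refine ⟨n * addOrderOf (x : (∀ i, V i) ⧸ Γ), Nat.mul_pos hn hm0, ?_⟩
      rw [mul_smul]
      exact h2
    obtain ⟨ci, hci⟩ : ∃ ci : V i, ci = a • l₀ := ⟨_, rfl⟩
    have hcfin : IsOfFinAddOrder ci := by rw [hci]; exact (hLo _ hl₀).nsmul
    have hcst : ∀ σ : G, act i σ ci ∈ AddSubgroup.zmultiples ci := by
      intro σ
      rw [hci, map_nsmul]
      exact hcyc _ (hLst σ _ hl₀)
    obtain ⟨N, hN⟩ : ∃ N : ℕ, N = addOrderOf ci := ⟨_, rfl⟩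
    have hNk : ∀ v ∈ AddSubgroup.zmultiples ci, N • v = 0 := by
      intro v hv
      obtain ⟨k, rfl⟩ := AddSubgroup.mem_zmultiples_iff.1 hv
      rw [smul_comm, hN, addOrderOf_nsmul_eq_zero, smul_zero]
    obtain ⟨wi, hwi⟩ : ∃ wi : V i, wi = N • (a • x i) := ⟨_, rfl⟩
    have hwfin : IsOfFinAddOrder wi := by rw [hwi]; exact hxi.nsmul.nsmul
    have hwinv : ∀ σ : G, act i σ wi = wi := by
      intro σ
      have h1 := hLx _ (hσ σ) fun j hj => by
        change act j σ (x j) - x j = 0
        rw [hx j hj, map_zero, sub_zero]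
      change act i σ (x i) - x i ∈ L at h1
      have h2 := hcyc _ h1
      rw [← hci] at h2
      have h3 := hNk _ h2
      rw [smul_sub, smul_sub, sub_eq_zero] at h3
      rw [hwi, map_nsmul, map_nsmul]
      exact h3
    obtain ⟨mi, hmi⟩ : ∃ mi : ℕ, mi = addOrderOf ci * addOrderOf wi := ⟨_, rfl⟩
    have h2 : mi • x i ∈ L := by
      apply haL
      rw [smul_comm, hmi, mul_comm, mul_smul, ← hN, ← hwi]
      exact addOrderOf_nsmul_eq_zero _
    obtain ⟨γ, hγ, hγi⟩ := h2
    have hγi' : γ i = mi • x i := hγi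
    have hγ' := (hmem γ).1 hγ
    have hyx : ((mi • x - γ : ∀ i, V i) : (∀ i, V i) ⧸ Γ) = mi • (x : (∀ i, V i) ⧸ Γ) := by
      rw [QuotientAddGroup.mk_sub, (QuotientAddGroup.eq_zero_iff γ).2 hγ'.1, sub_zero]
      rfl
    obtain ⟨c', w', hcw, hdvd⟩ := ih (mi • x - γ) (by
      intro j hj
      by_cases hji : j = i
      · subst hji
        rw [Pi.sub_apply, hγi', Pi.smul_apply, sub_self]
      · have h1 : j ∉ insert i s := fun h => (Finset.mem_insert.1 h).elim hji hj
        rw [Pi.sub_apply, Pi.smul_apply, hx j h1, hγ'.2 j h1, smul_zero, sub_zero]) (by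
      intro σ
      have h1 := Γ.sub_mem (Γ.nsmul_mem (hσ σ) mi) (Γ.sub_mem (hst σ γ hγ'.1) hγ'.1)
      convert h1 using 1
      funext j
      simp only [Pi.sub_apply, Pi.smul_apply, map_sub, map_nsmul, smul_sub]
      abel) (by
      rw [hyx]
      exact hfin.nsmul)
    refine ⟨Function.update c' i ci, Function.update w' i wi, fun j => ?_, ?_⟩
    · by_cases hj : j = i
      · subst hj
        rw [Function.update_self, Function.update_self]
        exact ⟨hcfin, hwfin, hcst, hwinv⟩
      · rw [Function.update_of_ne hj, Function.update_of_ne hj]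
        exact hcw j
    · rw [Finset.prod_insert his, Function.update_self, Function.update_self, ← hmi]
      have h3 : ∏ j ∈ s, (addOrderOf (Function.update c' i ci j) *
          addOrderOf (Function.update w' i wi j)) =
          ∏ j ∈ s, (addOrderOf (c' j) * addOrderOf (w' j)) := by
        refine Finset.prod_congr rfl fun j hj => ?_
        have hne : j ≠ i := by
          rintro rfl
          exact his hj
        rw [Function.update_of_ne hne, Function.update_of_ne hne]
      rw [h3]
      rw [hyx] at hdvd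
      refine dvd_trans ?_ (mul_dvd_mul_left mi hdvd)
      apply addOrderOf_dvd_of_nsmul_eq_zero
      rw [mul_comm, mul_smul]
      exact addOrderOf_nsmul_eq_zero _

theorem t_TORSM : Pool.Agent.N495.TS.S_TORSM := by
  intro G g V _ act hV Γ hΓ hst x hσ hfin
  exact many V act hV Γ hΓ hst Finset.univ x (fun j hj => absurd (Finset.mem_univ j) hj) hσ hfin

end Pool.Agent.N617.TS
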